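import Pool.Agent.H121.SH.IfM
import Pool.Agent.H105.SH.MainX

/-! SM-MAINA: the recursion, the potentials in `A`. -/

set_option autoImplicit false

open scoped BigOperators InnerProductSpace Topology ENNReal
open Filter MeasureTheory

namespace Pool.Agent.H383.SH

open Pool.Agent.H121.SH
open Pool.Agent.H121.Z987 (lint_resample update_meas)
open Pool.Agent.H105.SH (rpow_sum_le bt gr1_update gr_diag gr_norm enorm_rpow)

section

variable {ι : Type}

/-- the integral over the value at `x` in `A` -/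
theorem diag_le (hS : S_sch) (hO : S_oneA) {D lam h : ℝ} (hD : 0 < D) (hlam : 1 ≤ lam) (h0 : 0 < h)
    (h1 : h ≤ 1 / 2) (μ : Measure ℝ) (A : Set ℝ) (hA : MeasurableSet A) (hμ : Sn D (μ.restrict A))
    {K : ℕ} {t : ι → ι → ℝ} {N : ι → Finset ι} (hG : Grf K t N)
    (Ω : Set ι) {z : ℂ} (hz : 0 < z.im) (x : ι) (hx : x ∈ Ω) [DecidableEq ι] (ω : ι → ℝ) :
    ∫⁻ v, {ω : ι → ℝ | ω x ∈ A}.indicator
      (fun ω => ‖GR t (fun p => lam * ω p) Ω z x x‖ₑ ^ (1 - h)) (Function.update ω x v) ∂μ ≤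
      ENNReal.ofReal (cC D lam h) := by
  refine le_trans (le_of_eq ?_) (hO D lam h hD hlam h0 h1 (μ.restrict A) hμ (bt t N lam Ω z x ω)).1
  rw [← lintegral_indicator hA]
  refine lintegral_congr fun v => ?_
  by_cases hv : v ∈ A
  · rw [Set.indicator_of_mem hv, Set.indicator_of_mem]
    · rw [enorm_rpow _ (by linarith), (gr_norm hS hG lam Ω hz x hx ω v).2]
    · rw [Set.mem_ofPred_eq, Function.update_self]
      exact hv
  · rw [Set.indicator_of_notMem hv, Set.indicator_of_notMem]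
    rw [Set.mem_ofPred_eq, Function.update_self]
    exact hv

theorem diag_le' (hS : S_sch) (hO : S_oneA) {D lam h : ℝ} (hD : 0 < D) (hlam : 1 ≤ lam)
    (h0 : 0 < h) (h1 : h ≤ 1 / 2) (μ : Measure ℝ) (A : Set ℝ) (hA : MeasurableSet A)
    (hμ : Sn D (μ.restrict A))
    {K : ℕ} {t : ι → ι → ℝ} {N : ι → Finset ι} (hG : Grf K t N)
    (Ω : Set ι) {z : ℂ} (hz : 0 < z.im) (x : ι) (hx : x ∈ Ω) [DecidableEq ι] (ω : ι → ℝ) :
    ∫⁻ v, {ω : ι → ℝ | ω x ∈ A ∧ ‖GR t (fun p => lam * ω p) Ω z x x‖ < lam}.indicator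
      (fun ω => ‖GR t (fun p => lam * ω p) Ω z x x‖ₑ ^ (1 - h)) (Function.update ω x v) ∂μ ≤
      ENNReal.ofReal (cM D lam h) := by
  have hl0 : 0 < lam := by linarith
  refine le_trans (le_of_eq ?_)
    (hO D lam h hD hlam h0 h1 (μ.restrict A) hμ (bt t N lam Ω z x ω)).2.1
  have hms : MeasurableSet {v : ℝ | 1 / lam < ‖((lam * v : ℝ) : ℂ) - bt t N lam Ω z x ω‖} := by
    apply measurableSet_lt measurable_const
    apply Measurable.norm
    apply Measurable.sub_const
    exact Complex.measurable_ofReal.comp (measurable_const_mul lam)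
  rw [← lintegral_indicator hms, ← lintegral_indicator hA]
  refine lintegral_congr fun v => ?_
  obtain ⟨e1, e2⟩ := gr_norm hS hG lam Ω hz x hx ω v
  by_cases hvA : v ∈ A
  · rw [Set.indicator_of_mem hvA]
    by_cases hv : 1 / lam < ‖((lam * v : ℝ) : ℂ) - bt t N lam Ω z x ω‖
    · rw [Set.indicator_of_mem, Set.indicator_of_mem]
      · rw [enorm_rpow _ (by linarith), e2]
      · exact hv
      · rw [Set.mem_ofPred_eq, Function.update_self, e2]
        refine ⟨hvA, ?_⟩
        rw [inv_lt_comm₀ e1 hl0, ← one_div]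
        exact hv
    · rw [Set.indicator_of_notMem, Set.indicator_of_notMem]
      · exact hv
      · rw [Set.mem_ofPred_eq, Function.update_self, e2]
        rw [inv_lt_comm₀ e1 hl0, ← one_div]
        exact fun hh => hv hh.2
  · rw [Set.indicator_of_notMem hvA, Set.indicator_of_notMem]
    rw [Set.mem_ofPred_eq, Function.update_self]
    exact fun hh => hvA hh.1

/-- the integrand of the two kinds of non resonant neighbours -/
noncomputable def nf (A : Set ℝ) (lam h : ℝ) (t : ι → ι → ℝ) (Ω : Set ι) (z : ℂ)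
    (y : ι) (x' : ι) (ω : ι → ℝ) : ℝ≥0∞ :=
  {ω : ι → ℝ | ω x' ∈ A ∧ ‖GR t (fun p => lam * ω p) Ω z x' x'‖ < lam}.indicator
      (fun ω => ‖GR t (fun p => lam * ω p) Ω z x' y‖ₑ ^ (1 - h)) ω +
    {ω : ι → ℝ | ω x' ∈ Aᶜ}.indicator
      (fun ω => ‖GR t (fun p => lam * ω p) Ω z x' y‖ₑ ^ (1 - h)) ω

/-- the integrand of the resonant neighbours -/
noncomputable def rf (A : Set ℝ) (lam h : ℝ) (t : ι → ι → ℝ) (Ω : Set ι) (z : ℂ)
    (x y : ι) (x' : ι) (ω : ι → ℝ) : ℝ≥0∞ :=
  {ω : ι → ℝ | ω x ∈ A ∧ ω x' ∈ A ∧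
      lam ≤ ‖GR t (fun p => lam * ω p) (Ω \ {x}) z x' x'‖}.indicator
    (fun ω => ‖GR t (fun p => lam * ω p) Ω z x y‖ₑ ^ (1 - h)) ω

/-- the pointwise bound -/
theorem pt_le (hS : S_sch) {K : ℕ} {t : ι → ι → ℝ} {N : ι → Finset ι} (hG : Grf K t N)
    {lam h : ℝ} (h0 : 0 < h) (h1 : h ≤ 1 / 2)
    (Ω : Set ι) {z : ℂ} (hz : 0 < z.im) (x : ι) (hx : x ∈ Ω) (y : ι) (hy : y ≠ x) (A : Set ℝ)
    (B : Set (ι → ℝ)) (hB : ∀ ω ∈ B, ω x ∈ A) (ω : ι → ℝ) :
    B.indicator (fun ω => ‖GR t (fun p => lam * ω p) Ω z x y‖ₑ ^ (1 - h)) ω ≤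
      B.indicator (fun ω => ‖GR t (fun p => lam * ω p) Ω z x x‖ₑ ^ (1 - h)) ω *
        ∑ x' ∈ N x, nf A lam h t (Ω \ {x}) z y x' ω +
      ∑ x' ∈ N x, rf A lam h t Ω z x y x' ω := by
  by_cases hA : ω ∈ B
  swap
  · rw [Set.indicator_of_notMem hA]
    exact bot_le
  rw [Set.indicator_of_mem hA, Set.indicator_of_mem hA]
  by_cases hex : ∃ x' ∈ N x, ω x' ∈ A ∧ lam ≤ ‖GR t (fun p => lam * ω p) (Ω \ {x}) z x' x'‖
  · obtain ⟨x', hx', hr⟩ := hex
    refine le_trans ?_ le_add_self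
    have h2 : ‖GR t (fun p => lam * ω p) Ω z x y‖ₑ ^ (1 - h) = rf A lam h t Ω z x y x' ω := by
      unfold rf
      rw [Set.indicator_of_mem]
      exact ⟨hB ω hA, hr⟩
    rw [h2]
    exact Finset.single_le_sum (f := fun x' => rf A lam h t Ω z x y x' ω) (fun _ _ => bot_le) hx'
  · push Not at hex
    refine le_trans ?_ le_self_add
    have h2 := ((hS ι K t N hG (fun p => lam * ω p) Ω z hz).2.2.2 x hx).2.2.1 y hy
    rw [h2, enorm_neg, enorm_mul, ENNReal.mul_rpow_of_nonneg _ _ (by linarith)]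
    gcongr
    calc ‖∑ w ∈ N x, ((t x w : ℝ) : ℂ) * GR t (fun p => lam * ω p) (Ω \ {x}) z w y‖ₑ ^ (1 - h)
        ≤ (∑ w ∈ N x, ‖GR t (fun p => lam * ω p) (Ω \ {x}) z w y‖ₑ) ^ (1 - h) := by
          apply ENNReal.rpow_le_rpow _ (by linarith)
          refine (enorm_sum_le _ _).trans (Finset.sum_le_sum fun w _ => ?_)
          rw [enorm_mul]
          have h3 : ‖((t x w : ℝ) : ℂ)‖ₑ ≤ 1 := by
            rw [← ofReal_norm, Complex.norm_real, Real.norm_eq_abs]
            rw [← ENNReal.ofReal_one]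
            exact ENNReal.ofReal_le_ofReal (hG.le x w)
          calc _ ≤ 1 * ‖GR t (fun p => lam * ω p) (Ω \ {x}) z w y‖ₑ := by gcongr
            _ = _ := one_mul _
      _ ≤ ∑ w ∈ N x, ‖GR t (fun p => lam * ω p) (Ω \ {x}) z w y‖ₑ ^ (1 - h) :=
          rpow_sum_le _ _ (by linarith) (by linarith)
      _ ≤ _ := by
          refine Finset.sum_le_sum fun w hw => ?_
          unfold nf
          by_cases hwA : ω w ∈ A
          · refine le_trans ?_ le_self_add
            rw [Set.indicator_of_mem]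
            exact ⟨hwA, hex w hw hwA⟩
          · refine le_trans ?_ le_add_self
            rw [Set.indicator_of_mem]
            exact hwA

end

/-- the general step -/
theorem step (hS : S_sch) (hM : S_measR) {ι : Type} [Countable ι] {K : ℕ} {t : ι → ι → ℝ}
    {N : ι → Finset ι} (hG : Grf K t N) {lam h : ℝ} (h0 : 0 < h) (h1 : h ≤ 1 / 2)
    (μ : Measure ℝ) [IsProbabilityMeasure μ]
    (Ω : Set ι) {z : ℂ} (hz : 0 < z.im) (x : ι) (hx : x ∈ Ω) (y : ι) (hy : y ≠ x) [DecidableEq ι]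
    (A : Set ℝ) (hA : MeasurableSet A)
    (B : Set (ι → ℝ)) (hBm : MeasurableSet B) (hB : ∀ ω ∈ B, ω x ∈ A) (c : ℝ≥0∞)
    (hc : ∀ ω, ∫⁻ v, B.indicator (fun ω => ‖GR t (fun p => lam * ω p) Ω z x x‖ₑ ^ (1 - h))
      (Function.update ω x v) ∂μ ≤ c) :
    ∫⁻ ω, B.indicator (fun ω => ‖GR t (fun p => lam * ω p) Ω z x y‖ₑ ^ (1 - h)) ω
        ∂(Measure.infinitePi fun _ : ι => μ) ≤
      c * ∑ x' ∈ N x, (fbA μ A lam (1 - h) t (Ω \ {x}) z x' y +
          faA μ Aᶜ lam (1 - h) t (Ω \ {x}) z x' y) +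
        ∑ x' ∈ N x, foA μ A lam (1 - h) t Ω z x x' y := by
  have hm : ∀ (Ω : Set ι) (p q : ι), Measurable fun ω : ι → ℝ => GR t (fun p => lam * ω p) Ω z p q :=
    fun Ω p q => hM ι K t N hG lam Ω z p q hz.ne'
  have hme : ∀ (Ω : Set ι) (p q : ι),
      Measurable fun ω : ι → ℝ => ‖GR t (fun p => lam * ω p) Ω z p q‖ₑ ^ (1 - h) :=
    fun Ω p q => (hm Ω p q).enorm.pow_const _
  have hmA : ∀ (p : ι) (C : Set ℝ), MeasurableSet C → MeasurableSet {ω : ι → ℝ | ω p ∈ C} :=
    fun p C hC => (measurable_pi_apply p) hC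
  have hF1 : ∀ x', Measurable fun ω : ι → ℝ =>
      {ω : ι → ℝ | ω x' ∈ A ∧ ‖GR t (fun p => lam * ω p) (Ω \ {x}) z x' x'‖ < lam}.indicator
        (fun ω => ‖GR t (fun p => lam * ω p) (Ω \ {x}) z x' y‖ₑ ^ (1 - h)) ω := by
    intro x'
    exact (hme (Ω \ {x}) x' y).indicator
      ((hmA x' A hA).inter (measurableSet_lt (hm _ _ _).norm measurable_const))
  have hF2 : ∀ x', Measurable fun ω : ι → ℝ => {ω : ι → ℝ | ω x' ∈ Aᶜ}.indicator
        (fun ω => ‖GR t (fun p => lam * ω p) (Ω \ {x}) z x' y‖ₑ ^ (1 - h)) ω := by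
    intro x'
    exact (hme (Ω \ {x}) x' y).indicator (hmA x' Aᶜ hA.compl)
  have hF : ∀ x', Measurable fun ω : ι → ℝ => nf A lam h t (Ω \ {x}) z y x' ω :=
    fun x' => (hF1 x').add (hF2 x')
  have hR : ∀ x', Measurable fun ω : ι → ℝ => rf A lam h t Ω z x y x' ω := by
    intro x'
    exact (hme Ω x y).indicator ((hmA x A hA).inter
      ((hmA x' A hA).inter (measurableSet_le measurable_const (hm _ _ _).norm)))
  have hX : Measurable fun ω : ι → ℝ =>
      B.indicator (fun ω => ‖GR t (fun p => lam * ω p) Ω z x x‖ₑ ^ (1 - h)) ω :=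
    (hme Ω x x).indicator hBm
  calc _ ≤ ∫⁻ ω, (B.indicator (fun ω => ‖GR t (fun p => lam * ω p) Ω z x x‖ₑ ^ (1 - h)) ω *
        ∑ x' ∈ N x, nf A lam h t (Ω \ {x}) z y x' ω +
      ∑ x' ∈ N x, rf A lam h t Ω z x y x' ω)
        ∂(Measure.infinitePi fun _ : ι => μ) :=
        lintegral_mono fun ω => pt_le hS hG h0 h1 Ω hz x hx y hy A B hB ω
    _ = (∫⁻ ω, (B.indicator (fun ω => ‖GR t (fun p => lam * ω p) Ω z x x‖ₑ ^ (1 - h)) ω *
        ∑ x' ∈ N x, nf A lam h t (Ω \ {x}) z y x' ω)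
        ∂(Measure.infinitePi fun _ : ι => μ)) +
          ∑ x' ∈ N x, foA μ A lam (1 - h) t Ω z x x' y := by
        rw [lintegral_add_right _ (Finset.measurable_sum _ fun x' _ => hR x'),
          lintegral_finsetSum _ fun x' _ => hR x']
        rfl
    _ ≤ _ := by
        gcongr
        have hmul : Measurable (fun ω : ι → ℝ =>
            B.indicator (fun ω => ‖GR t (fun p => lam * ω p) Ω z x x‖ₑ ^ (1 - h)) ω *
            ∑ x' ∈ N x, nf A lam h t (Ω \ {x}) z y x' ω) :=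
          hX.mul (Finset.measurable_sum _ fun x' _ => hF x')
        rw [lint_resample μ x _ hmul]
        have e1 : ∀ ω : ι → ℝ, ∫⁻ v, B.indicator (fun ω =>
              ‖GR t (fun p => lam * ω p) Ω z x x‖ₑ ^ (1 - h)) (Function.update ω x v) *
            ∑ x' ∈ N x, nf A lam h t (Ω \ {x}) z y x' (Function.update ω x v) ∂μ ≤
            c * ∑ x' ∈ N x, nf A lam h t (Ω \ {x}) z y x' ω := by
          intro ω
          have e2 : ∀ v, ∑ x' ∈ N x, nf A lam h t (Ω \ {x}) z y x' (Function.update ω x v) =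
              ∑ x' ∈ N x, nf A lam h t (Ω \ {x}) z y x' ω := by
            intro v
            refine Finset.sum_congr rfl fun x' hx' => ?_
            have hne : x' ≠ x := fun hh => hG.nx x (hh ▸ hx')
            unfold nf
            classical
            simp only [Set.indicator_apply, Set.mem_ofPred_eq, Set.mem_compl_iff, gr1_update hS hG lam Ω hz x ω v,
              Function.update_of_ne hne]
          refine le_trans (le_of_eq (lintegral_congr fun v => congrArg
            (fun r => B.indicator (fun ω => ‖GR t (fun p => lam * ω p) Ω z x x‖ₑ ^ (1 - h))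
              (Function.update ω x v) * r) (e2 v))) ?_
          have hXv : Measurable (fun v : ℝ => B.indicator (fun ω =>
              ‖GR t (fun p => lam * ω p) Ω z x x‖ₑ ^ (1 - h)) (Function.update ω x v)) :=
            hX.comp ((update_meas x).comp (measurable_prodMk_left (x := ω)))
          rw [lintegral_mul_const _ hXv]
          gcongr
          exact hc ω
        refine (lintegral_mono e1).trans ?_
        rw [lintegral_const_mul _ (Finset.measurable_sum _ fun x' _ => hF x'),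
          lintegral_finsetSum _ fun x' _ => hF x']
        refine le_of_eq ?_
        refine congrArg (fun r => c * r) (Finset.sum_congr rfl fun x' _ => ?_)
        unfold nf
        rw [lintegral_add_right _ (hF2 x')]
        rfl

theorem mainA (hS : S_sch) (hO : S_oneA) (hM : S_measR) : S_mainA := by
  classical
  intro D lam h hD hlam h0 h1 μ _ A hAm hμ ι _ K t N hG Ω z x hz hx
  have hm : ∀ (Ω : Set ι) (p q : ι), Measurable fun ω : ι → ℝ => GR t (fun p => lam * ω p) Ω z p q :=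
    fun Ω p q => hM ι K t N hG lam Ω z p q hz.ne'
  have hme : ∀ (Ω : Set ι) (p q : ι),
      Measurable fun ω : ι → ℝ => ‖GR t (fun p => lam * ω p) Ω z p q‖ₑ ^ (1 - h) :=
    fun Ω p q => (hm Ω p q).enorm.pow_const _
  have hmA : MeasurableSet {ω : ι → ℝ | ω x ∈ A} := (measurable_pi_apply x) hAm
  have hmB : MeasurableSet {ω : ι → ℝ | ω x ∈ A ∧ ‖GR t (fun p => lam * ω p) Ω z x x‖ < lam} :=
    hmA.inter (measurableSet_lt (hm _ _ _).norm measurable_const)
  have c1 := diag_le hS hO hD hlam h0 h1 μ A hAm hμ hG Ω hz x hx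
  have c2 := diag_le' hS hO hD hlam h0 h1 μ A hAm hμ hG Ω hz x hx
  refine ⟨?_, ?_, ?_⟩
  · unfold faA
    rw [lint_resample μ x _ ((hme Ω x x).indicator hmA)]
    refine (lintegral_mono c1).trans (le_of_eq ?_)
    rw [lintegral_const, measure_univ, mul_one]
  · unfold fbA
    rw [lint_resample μ x _ ((hme Ω x x).indicator hmB)]
    refine (lintegral_mono c2).trans (le_of_eq ?_)
    rw [lintegral_const, measure_univ, mul_one]
  · intro y hy
    exact ⟨step hS hM hG h0 h1 μ Ω hz x hx y hy A hAm _ hmA (fun _ h => h)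
        (ENNReal.ofReal (cC D lam h)) c1,
      step hS hM hG h0 h1 μ Ω hz x hx y hy A hAm _ hmB (fun _ h => h.1)
        (ENNReal.ofReal (cM D lam h)) c2⟩

end Pool.Agent.H383.SH
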